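import Mathlib

/-!
Chapter (2) RESIDUES, part A: representations of products of quaternion algebras over a field.
-/

set_option autoImplicit false

namespace Pool.Agent.Lib.MP_43d240_ag.H66

open Module

section Alg

variable {κ : Type*} [Field κ] {E : Type*} [Ring E] [Algebra κ E]

/-- Elements commuting with an anticommuting pair of invertible elements are independent over it. -/
theorem quad_indep (h2 : (2 : κ) ≠ 0) {x y : E} {u v : κ} (hu : u ≠ 0) (hv : v ≠ 0)
    (hx : x * x = algebraMap κ E u) (hy : y * y = algebraMap κ E v) (hxy : x * y = -(y * x))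
    {c1 c2 c3 c4 : E} (h1x : x * c1 = c1 * x) (h2x : x * c2 = c2 * x) (h3x : x * c3 = c3 * x)
    (h4x : x * c4 = c4 * x) (h1y : y * c1 = c1 * y) (h2y : y * c2 = c2 * y)
    (h3y : y * c3 = c3 * y) (h4y : y * c4 = c4 * y)
    (h : c1 + c2 * x + c3 * y + c4 * x * y = 0) : c1 = 0 ∧ c2 = 0 ∧ c3 = 0 ∧ c4 = 0 := by
  have canx : ∀ t : E, t * x = 0 → t = 0 := by
    intro t ht
    have : t * (x * x) = 0 := by rw [← mul_assoc, ht, zero_mul]
    rw [hx] at this
    have h3 : t * algebraMap κ E u * algebraMap κ E u⁻¹ = 0 := by rw [this, zero_mul]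
    rwa [mul_assoc, ← map_mul, mul_inv_cancel₀ hu, map_one, mul_one] at h3
  have cany : ∀ t : E, t * y = 0 → t = 0 := by
    intro t ht
    have : t * (y * y) = 0 := by rw [← mul_assoc, ht, zero_mul]
    rw [hy] at this
    have h3 : t * algebraMap κ E v * algebraMap κ E v⁻¹ = 0 := by rw [this, zero_mul]
    rwa [mul_assoc, ← map_mul, mul_inv_cancel₀ hv, map_one, mul_one] at h3
  have can2 : ∀ t : E, t + t = 0 → t = 0 := by
    intro t ht
    have h3 : (2 : κ) • t = 0 := by rw [two_smul, ht]
    exact (smul_eq_zero_iff_right h2).mp h3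
  have key : ∀ s t : E, (x * s = s * x) → (x * t = t * x) → (y * s = s * y) → (y * t = t * y) →
      s + t * x = 0 → s = 0 ∧ t = 0 := by
    intro s t hs ht hs' ht' h
    have e1 : y * (s + t * x) + (s + t * x) * y = (s * y) + (s * y) := by
      have : y * (t * x) = -(t * x * y) := by
        rw [← mul_assoc, ht', mul_assoc, mul_assoc, hxy, mul_neg, neg_neg]
      rw [mul_add, add_mul, this, hs']
      abel
    rw [h, mul_zero, zero_mul, add_zero] at e1
    have hs0 : s = 0 := cany _ (can2 _ e1.symm)
    rw [hs0, zero_add] at h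
    exact ⟨hs0, canx _ h⟩
  have e : x * (c1 + c2 * x + c3 * y + c4 * x * y) + (c1 + c2 * x + c3 * y + c4 * x * y) * x
      = (c1 + c2 * x) * x + (c1 + c2 * x) * x := by
    have a1 : x * (c3 * y) = -(c3 * y * x) := by
      rw [← mul_assoc, h3x, mul_assoc, hxy, mul_neg, ← mul_assoc]
    have hyx : y * x = -(x * y) := by rw [hxy, neg_neg]
    have a2 : x * (c4 * x * y) = -(c4 * x * y * x) := by
      have e1 : x * (c4 * x * y) = c4 * x * x * y := by
        rw [mul_assoc c4 x y, ← mul_assoc x c4, h4x]
        simp only [mul_assoc]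
      have e2 : c4 * x * y * x = -(c4 * x * x * y) := by
        rw [mul_assoc (c4 * x) y x, hyx, mul_neg, ← mul_assoc]
      rw [e1, e2, neg_neg]
    have a3 : x * c1 = c1 * x := h1x
    have a4 : x * (c2 * x) = c2 * x * x := by rw [← mul_assoc, h2x]
    rw [mul_add, mul_add, mul_add, add_mul, add_mul, add_mul, a1, a2, a3, a4]
    noncomm_ring
  rw [h, mul_zero, zero_mul, add_zero] at e
  have h12 : c1 + c2 * x = 0 := canx _ (can2 _ e.symm)
  have h34 : (c3 + c4 * x) * y = 0 := by
    have : c1 + c2 * x + c3 * y + c4 * x * y = (c1 + c2 * x) + (c3 + c4 * x) * y := by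
      rw [add_mul]; abel
    rw [this, h12, zero_add] at h
    exact h
  have h34' : c3 + c4 * x = 0 := cany _ h34
  obtain ⟨r1, r2⟩ := key c1 c2 h1x h2x h1y h2y h12
  obtain ⟨r3, r4⟩ := key c3 c4 h3x h4x h3y h4y h34'
  exact ⟨r1, r2, r3, r4⟩

end Alg

section Dim

variable {κ : Type*} [Field κ] {E : Type*} [Ring E] [Algebra κ E]

/-- The `κ`-linear map `S^4 → E`, `(c1, c2, c3, c4) ↦ c1 + c2 x + c3 y + c4 x y`. -/
def quadMap (S : Submodule κ E) (x y : E) : ((S × S) × (S × S)) →ₗ[κ] E :=
  LinearMap.coprod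
    (LinearMap.coprod S.subtype ((LinearMap.mulRight κ x).comp S.subtype))
    (LinearMap.coprod ((LinearMap.mulRight κ y).comp S.subtype)
      ((LinearMap.mulRight κ (x * y)).comp S.subtype))

theorem quadMap_apply (S : Submodule κ E) (x y : E) (c : (S × S) × (S × S)) :
    quadMap S x y c = (c.1.1 : E) + c.1.2 * x + c.2.1 * y + c.2.2 * x * y := by
  simp [quadMap, mul_assoc, add_assoc]

theorem pow_mul_le_finrank (h2 : (2 : κ) ≠ 0) [FiniteDimensional κ E] :
    ∀ (s : ℕ) (X Y : Fin s → E) (u v : Fin s → κ) (S : Submodule κ E),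
      (∀ i, u i ≠ 0) → (∀ i, v i ≠ 0) →
      (∀ i, X i * X i = algebraMap κ E (u i)) → (∀ i, Y i * Y i = algebraMap κ E (v i)) →
      (∀ i, X i * Y i = -(Y i * X i)) →
      (∀ i j, i ≠ j → Commute (X i) (X j) ∧ Commute (X i) (Y j) ∧ Commute (Y i) (Y j)) →
      (∀ c ∈ S, ∀ i, Commute (X i) c ∧ Commute (Y i) c) →
      4 ^ s * finrank κ S ≤ finrank κ E := by
  intro s
  induction s with
  | zero =>
    intro X Y u v S _ _ _ _ _ _ _
    simpa using Submodule.finrank_le S
  | succ s ih =>
    intro X Y u v S hu hv hX hY hXY hc hS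
    have hinj : Function.Injective (quadMap S (X 0) (Y 0)) := by
      rw [← LinearMap.ker_eq_bot, LinearMap.ker_eq_bot']
      intro c hc0
      rw [quadMap_apply] at hc0
      have h1 := quad_indep h2 (hu 0) (hv 0) (hX 0) (hY 0) (hXY 0)
        (hS _ c.1.1.2 0).1.eq (hS _ c.1.2.2 0).1.eq (hS _ c.2.1.2 0).1.eq (hS _ c.2.2.2 0).1.eq
        (hS _ c.1.1.2 0).2.eq (hS _ c.1.2.2 0).2.eq (hS _ c.2.1.2 0).2.eq (hS _ c.2.2.2 0).2.eq hc0
      ext <;> simp [h1.1, h1.2.1, h1.2.2.1, h1.2.2.2]
    have hdim : finrank κ (LinearMap.range (quadMap S (X 0) (Y 0))) = 4 * finrank κ S := by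
      rw [LinearMap.finrank_range_of_inj hinj]
      simp only [Module.finrank_prod]
      ring
    have hstep := ih (fun i => X i.succ) (fun i => Y i.succ) (fun i => u i.succ)
      (fun i => v i.succ) (LinearMap.range (quadMap S (X 0) (Y 0))) (fun i => hu _)
      (fun i => hv _) (fun i => hX _) (fun i => hY _) (fun i => hXY _)
      (fun i j hij => hc _ _ (fun h => hij (Fin.succ_injective _ h))) ?_
    · rw [hdim] at hstep
      calc 4 ^ (s + 1) * finrank κ S = 4 ^ s * (4 * finrank κ S) := by ring
        _ ≤ _ := hstep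
    · rintro _ ⟨c, rfl⟩ i
      rw [quadMap_apply]
      have h0 : (0 : Fin (s + 1)) ≠ i.succ := (Fin.succ_ne_zero i).symm
      have c1 := hc _ _ h0
      have c2 := hc _ _ h0.symm
      have hXX : Commute (X i.succ) (X 0) := c2.1
      have hXY' : Commute (X i.succ) (Y 0) := c2.2.1
      have hYX : Commute (Y i.succ) (X 0) := c1.2.1.symm
      have hYY : Commute (Y i.succ) (Y 0) := c2.2.2
      constructor
      · exact ((((hS _ c.1.1.2 _).1.add_right ((hS _ c.1.2.2 _).1.mul_right hXX)).add_right
          ((hS _ c.2.1.2 _).1.mul_right hXY'))).add_right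
          (((hS _ c.2.2.2 _).1.mul_right hXX).mul_right hXY')
      · exact ((((hS _ c.1.1.2 _).2.add_right ((hS _ c.1.2.2 _).2.mul_right hYX)).add_right
          ((hS _ c.2.1.2 _).2.mul_right hYY))).add_right
          (((hS _ c.2.2.2 _).2.mul_right hYX).mul_right hYY)

/-- Residue level statement: if `s` quaternion pairs and an operator `J` commuting with them act on
a space of dimension `2 ^ s`, then `J ^ 2` is a square. -/
theorem isSquare_of_rep (h2 : (2 : κ) ≠ 0) {W : Type*} [AddCommGroup W] [Module κ W]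
    [FiniteDimensional κ W] {s : ℕ} (hdim : finrank κ W = 2 ^ s)
    (X Y : Fin s → Module.End κ W) (u v : Fin s → κ) (hu : ∀ i, u i ≠ 0) (hv : ∀ i, v i ≠ 0)
    (hX : ∀ i, X i * X i = algebraMap κ _ (u i)) (hY : ∀ i, Y i * Y i = algebraMap κ _ (v i))
    (hXY : ∀ i, X i * Y i = -(Y i * X i))
    (hc : ∀ i j, i ≠ j → Commute (X i) (X j) ∧ Commute (X i) (Y j) ∧ Commute (Y i) (Y j))
    (J : Module.End κ W) (w : κ) (hJ : J * J = algebraMap κ _ w)
    (hJX : ∀ i, Commute (X i) J) (hJY : ∀ i, Commute (Y i) J) : IsSquare w := by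
  have hpos : 0 < finrank κ W := by rw [hdim]; positivity
  have : Nontrivial W := Module.finrank_pos_iff.mp hpos
  have : Nontrivial (Module.End κ W) := Module.End.instNontrivial
  by_cases hJs : ∃ c : κ, J = algebraMap κ _ c
  · obtain ⟨c, rfl⟩ := hJs
    rw [← map_mul] at hJ
    exact ⟨c, ((FaithfulSMul.algebraMap_injective κ (Module.End κ W)) hJ).symm⟩
  · exfalso
    push Not at hJs
    have hli : LinearIndependent κ ![(1 : Module.End κ W), J] := by
      rw [LinearIndependent.pair_iff' one_ne_zero]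
      intro a ha
      exact hJs a (by rw [Algebra.algebraMap_eq_smul_one, ha])
    have hS : finrank κ (Submodule.span κ (Set.range ![(1 : Module.End κ W), J])) = 2 := by
      rw [finrank_span_eq_card hli]; simp
    have := pow_mul_le_finrank h2 s X Y u v
      (Submodule.span κ (Set.range ![(1 : Module.End κ W), J])) hu hv hX hY hXY hc ?_
    · rw [hS] at this
      have he : finrank κ (Module.End κ W) = 2 ^ s * 2 ^ s := by
        rw [Module.finrank_linearMap, hdim]
      rw [he] at this
      have h4 : (4 : ℕ) ^ s = 2 ^ s * 2 ^ s := by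
        rw [← mul_pow]; norm_num
      rw [h4] at this
      have : 0 < 2 ^ s * 2 ^ s := by positivity
      omega
    · intro c hcS i
      constructor
      · refine Submodule.span_induction (p := fun c _ => Commute (X i) c) ?_ ?_ ?_ ?_ hcS
        · rintro x ⟨j, rfl⟩
          fin_cases j
          · exact Commute.one_right _
          · exact hJX i
        · exact Commute.zero_right _
        · intro a b _ _ ha hb; exact ha.add_right hb
        · intro r a _ ha; exact ha.smul_right r
      · refine Submodule.span_induction (p := fun c _ => Commute (Y i) c) ?_ ?_ ?_ ?_ hcS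
        · rintro x ⟨j, rfl⟩
          fin_cases j
          · exact Commute.one_right _
          · exact hJY i
        · exact Commute.zero_right _
        · intro a b _ _ ha hb; exact ha.add_right hb
        · intro r a _ ha; exact ha.smul_right r

end Dim

end Pool.Agent.Lib.MP_43d240_ag.H66
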