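import Mathlib
import Pool.Agent.Lib.MP_43d240_ag.H66.ResA

/-!
Chapter (2) RESIDUES, part B: the core lemma over a discrete valuation ring.
-/

set_option autoImplicit false

namespace Pool.Agent.Lib.MP_43d240_ag.H66

open Module IsLocalRing

section Lattice

variable {O K V : Type*} [CommRing O] [Field K] [Algebra O K] [AddCommGroup V] [Module K V]
  [Module O V] [IsScalarTower O K V]

/-- A finite family of operators which commute up to sign and whose squares are in `O` stabilises a
lattice. -/
theorem exists_lattice [FiniteDimensional K V] {ι : Type*} [Finite ι] (T : ι → Module.End K V)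
    (o : ι → O) (hT : ∀ i, T i * T i = algebraMap K _ (algebraMap O K (o i)))
    (hc : ∀ i j, T i * T j = T j * T i ∨ T i * T j = -(T j * T i)) :
    ∃ Λ : Submodule O V, Λ.FG ∧ Submodule.span K (Λ : Set V) = ⊤ ∧
      ∀ i, ∀ x ∈ Λ, T i x ∈ Λ := by
  classical
  have := Fintype.ofFinite ι
  suffices H : ∀ S : Finset ι, ∃ Λ : Submodule O V, Λ.FG ∧ Submodule.span K (Λ : Set V) = ⊤ ∧
      ∀ i ∈ S, ∀ x ∈ Λ, T i x ∈ Λ by
    obtain ⟨Λ, h1, h2, h3⟩ := H Finset.univ
    exact ⟨Λ, h1, h2, fun i => h3 i (Finset.mem_univ i)⟩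
  intro S
  induction S using Finset.induction_on with
  | empty =>
    let b := Module.finBasis K V
    refine ⟨Submodule.span O (Set.range b), Submodule.fg_span (Set.finite_range b), ?_, by simp⟩
    rw [Submodule.span_span_of_tower, b.span_eq]
  | insert j S hj ih =>
    obtain ⟨Λ, h1, h2, h3⟩ := ih
    refine ⟨Λ ⊔ Λ.map ((T j).restrictScalars O), h1.sup (h1.map _), ?_, ?_⟩
    · rw [eq_top_iff, ← h2]
      exact Submodule.span_mono (by exact_mod_cast (le_sup_left : Λ ≤ _))
    · intro i hi x hx
      obtain ⟨a, ha, c, hc', rfl⟩ := Submodule.mem_sup.mp hx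
      obtain ⟨b, hb, rfl⟩ := Submodule.mem_map.mp hc'
      have hTj : ∀ y ∈ Λ, T j y ∈ Λ ⊔ Λ.map ((T j).restrictScalars O) := fun y hy =>
        Submodule.mem_sup_right (Submodule.mem_map.mpr ⟨y, hy, rfl⟩)
      rw [map_add]
      rcases Finset.mem_insert.mp hi with rfl | hi
      · refine Submodule.add_mem _ (hTj a ha) (Submodule.mem_sup_left ?_)
        have e : T i (T i b) = o i • b := by
          have := congrArg (fun f : Module.End K V => f b) (hT i)
          simpa [Module.End.mul_apply, Module.algebraMap_end_apply, algebraMap_smul] using this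
        change T i (T i b) ∈ Λ
        rw [e]
        exact Λ.smul_mem _ hb
      · refine Submodule.add_mem _ (Submodule.mem_sup_left (h3 i hi a ha)) ?_
        change T i (T j b) ∈ _
        rcases hc i j with h | h
        · have e : T i (T j b) = T j (T i b) := by
            have := congrArg (fun f : Module.End K V => f b) h
            simpa [Module.End.mul_apply] using this
          rw [e]; exact hTj _ (h3 i hi b hb)
        · have e : T i (T j b) = -(T j (T i b)) := by
            have := congrArg (fun f : Module.End K V => f b) h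
            simpa [Module.End.mul_apply] using this
          rw [e]; exact Submodule.neg_mem _ (hTj _ (h3 i hi b hb))

end Lattice

section Core

open scoped TensorProduct

/-- The part of the core lemma which happens inside a lattice `Λ` (an abstract free `O`-module). -/
theorem core_lattice {O : Type*} [CommRing O] [IsDomain O] [IsDiscreteValuationRing O]
    (h2 : (2 : ResidueField O) ≠ 0) {Λ : Type*} [AddCommGroup Λ] [Module O Λ] [Module.Finite O Λ]
    [Module.Free O Λ] {s : ℕ} (hdim : finrank O Λ = 2 ^ (s + 1))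
    (X Y : Fin s → Module.End O Λ) (u v : Fin s → Oˣ)
    (hX : ∀ i, X i * X i = algebraMap O _ (u i : O)) (hY : ∀ i, Y i * Y i = algebraMap O _ (v i : O))
    (hXY : ∀ i, X i * Y i = -(Y i * X i))
    (hc : ∀ i j, i ≠ j → Commute (X i) (X j) ∧ Commute (X i) (Y j) ∧ Commute (Y i) (Y j))
    (J P : Module.End O Λ) (w : Oˣ) (p : O) (hp : Irreducible p)
    (hJ : J * J = algebraMap O _ (w : O)) (hP : P * P = algebraMap O _ p)
    (hJP : J * P = -(P * J)) (hJX : ∀ i, Commute (X i) J) (hJY : ∀ i, Commute (Y i) J)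
    (hPX : ∀ i, Commute (X i) P) (hPY : ∀ i, Commute (Y i) P) :
    IsSquare (residue O (w : O)) := by
  set κ := ResidueField O with hκ
  set φ : Module.End O Λ →ₐ[O] Module.End κ (κ ⊗[O] Λ) := Module.End.baseChangeHom O κ Λ with hφ
  have hφal : ∀ c : O, φ (algebraMap O _ c) = algebraMap κ _ (residue O c) := by
    intro c
    apply TensorProduct.AlgebraTensorModule.curry_injective
    ext x
    change (Module.End.baseChangeHom O κ Λ (algebraMap O _ c)) ((1 : κ) ⊗ₜ[O] x) = _
    have e0 : (Module.End.baseChangeHom O κ Λ (algebraMap O _ c)) ((1 : κ) ⊗ₜ[O] x)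
      = (1 : κ) ⊗ₜ[O] ((algebraMap O (Module.End O Λ) c) x) := rfl
    rw [e0, Module.algebraMap_end_apply, ← TensorProduct.smul_tmul, Algebra.smul_def, mul_one]
    change _ = residue O c • ((1 : κ) ⊗ₜ[O] x)
    rw [TensorProduct.smul_tmul', smul_eq_mul, mul_one]
    rfl
  have hsurj : Function.Surjective (TensorProduct.mk O κ Λ 1) := by
    rw [← LinearMap.range_eq_top, eq_top_iff, ← TensorProduct.span_tmul_eq_top O κ Λ,
      Submodule.span_le]
    rintro _ ⟨a, b, rfl⟩
    obtain ⟨a, rfl⟩ := residue_surjective a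
    refine ⟨a • b, ?_⟩
    change (1 : κ) ⊗ₜ[O] (a • b) = _
    rw [← TensorProduct.smul_tmul, Algebra.smul_def, mul_one]
    rfl
  have hpres : residue O p = 0 := by
    rw [residue_eq_zero_iff, hp.maximalIdeal_eq]
    exact Ideal.mem_span_singleton_self p
  -- kernel of `P` = range of `P`
  have hinj : ∀ x : Λ, P x = 0 → x = 0 := by
    intro x hx
    have h := congrArg (fun f : Module.End O Λ => f x) hP
    simp only [Module.End.mul_apply, hx, map_zero, Module.algebraMap_end_apply] at h
    exact (smul_eq_zero_iff_right hp.ne_zero).mp h.symm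
  have hker : LinearMap.ker (φ P) = LinearMap.range (φ P) := by
    apply le_antisymm
    · intro z hz
      obtain ⟨e, rfl⟩ := hsurj z
      have hz' : (1 : κ) ⊗ₜ[O] (P e) = 0 := hz
      have hm : P e ∈ (maximalIdeal O) • (⊤ : Submodule O Λ) := by
        have := LinearMap.ker_tensorProductMk (Q := Λ) (I := maximalIdeal O)
        rw [← this]
        exact hz'
      rw [hp.maximalIdeal_eq, Submodule.ideal_span_singleton_smul] at hm
      obtain ⟨e', _, he'⟩ := (Submodule.mem_smul_pointwise_iff_exists _ _ _).mp hm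
      have h1 : P e = P (P e') := by
        have h := congrArg (fun f : Module.End O Λ => f e') hP
        simp only [Module.End.mul_apply, Module.algebraMap_end_apply] at h
        rw [h, he']
      have h3 : e = P e' := by
        have := hinj (e - P e') (by rw [map_sub, h1, sub_self])
        exact sub_eq_zero.mp this
      refine ⟨(1 : κ) ⊗ₜ[O] e', ?_⟩
      rw [h3]; rfl
    · rintro _ ⟨z, rfl⟩
      rw [LinearMap.mem_ker]
      have h : φ P * φ P = 0 := by
        rw [← map_mul, hP, hφal, hpres, map_zero]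
      exact congrArg (fun f : Module.End κ (κ ⊗[O] Λ) => f z) h
  set W := LinearMap.range (φ P) with hW
  have hfr : finrank κ (κ ⊗[O] Λ) = 2 ^ (s + 1) := by rw [Module.finrank_baseChange, hdim]
  have hWdim : finrank κ W = 2 ^ s := by
    have h := LinearMap.finrank_range_add_finrank_ker (φ P)
    rw [← hW, hker, hfr, pow_succ] at h
    omega
  have stabX : ∀ T : Module.End O Λ, Commute T P → ∀ z ∈ W, φ T z ∈ W := by
    rintro T hT _ ⟨z, rfl⟩
    refine ⟨φ T z, ?_⟩
    have h := congrArg (fun f : Module.End κ (κ ⊗[O] Λ) => f z) (congrArg φ hT.eq)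
    simp only [map_mul, Module.End.mul_apply] at h
    exact h.symm
  have stabJ : ∀ z ∈ W, φ J z ∈ W := by
    rintro _ ⟨z, rfl⟩
    refine ⟨-(φ J z), ?_⟩
    have h := congrArg (fun f : Module.End κ (κ ⊗[O] Λ) => f z) (congrArg φ hJP)
    simp only [map_mul, map_neg, Module.End.mul_apply, LinearMap.neg_apply] at h
    rw [map_neg]
    exact h.symm
  let RX : ∀ T : Module.End κ (κ ⊗[O] Λ), (∀ z ∈ W, T z ∈ W) → Module.End κ W :=
    fun T hT => T.restrict hT
  have RXmul : ∀ (S T : Module.End κ (κ ⊗[O] Λ)) (hS : ∀ z ∈ W, S z ∈ W) (hT : ∀ z ∈ W, T z ∈ W)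
      (z : W), ((RX S hS * RX T hT) z : κ ⊗[O] Λ) = (S * T) (z : κ ⊗[O] Λ) := fun _ _ _ _ _ => rfl
  have comm : ∀ (S T : Module.End O Λ) (hS : ∀ z ∈ W, φ S z ∈ W) (hT : ∀ z ∈ W, φ T z ∈ W),
      Commute S T → Commute (RX (φ S) hS) (RX (φ T) hT) := by
    intro S T hS hT h
    apply LinearMap.ext; intro z; apply Subtype.ext
    rw [RXmul, RXmul, ← map_mul, ← map_mul, h.eq]
  have sq : ∀ (S : Module.End O Λ) (hS : ∀ z ∈ W, φ S z ∈ W) (c : O),
      S * S = algebraMap O _ c → RX (φ S) hS * RX (φ S) hS = algebraMap κ _ (residue O c) := by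
    intro S hS c h
    apply LinearMap.ext; intro z; apply Subtype.ext
    rw [RXmul, ← map_mul, h, hφal]
    rfl
  have c1 : ∀ i, Commute (RX (φ (X i)) (stabX _ (hPX i))) (RX (φ J) stabJ) :=
    fun i => comm _ _ (stabX _ (hPX i)) stabJ (hJX i)
  have c2 : ∀ i, Commute (RX (φ (Y i)) (stabX _ (hPY i))) (RX (φ J) stabJ) :=
    fun i => comm _ _ (stabX _ (hPY i)) stabJ (hJY i)
  refine isSquare_of_rep (κ := κ) (W := W) (s := s) h2 hWdim
    (fun i => RX (φ (X i)) (stabX _ (hPX i))) (fun i => RX (φ (Y i)) (stabX _ (hPY i)))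
    (fun i => residue O (u i : O)) (fun i => residue O (v i : O))
    (fun i => ((u i).isUnit.map (residue O)).ne_zero)
    (fun i => ((v i).isUnit.map (residue O)).ne_zero)
    (fun i => sq _ _ _ (hX i)) (fun i => sq _ _ _ (hY i)) ?_ ?_
    (RX (φ J) stabJ) (residue O (w : O)) (sq _ _ _ hJ) c1 c2
  · intro i
    apply LinearMap.ext; intro z; apply Subtype.ext
    change ((RX _ _ * RX _ _) z : κ ⊗[O] Λ) = -((RX _ _ * RX _ _) z : κ ⊗[O] Λ)
    rw [RXmul, RXmul, ← map_mul, ← map_mul, hXY i, map_neg]
    rfl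
  · intro i j hij
    exact ⟨comm _ _ (stabX _ (hPX i)) (stabX _ (hPX j)) (hc i j hij).1,
      comm _ _ (stabX _ (hPX i)) (stabX _ (hPY j)) (hc i j hij).2.1,
      comm _ _ (stabX _ (hPY i)) (stabX _ (hPY j)) (hc i j hij).2.2⟩

/-- **Core lemma.** Unit pairs `X i, Y i` (`i < s`), `J` with `J ^ 2 = w` a unit and `P` with
`P ^ 2 = p` a uniformizer, `J P = - P J`, everything else commuting, on a `K`-space of dimension
`2 ^ (s + 1)`: then `w` is a square in the residue field. -/
theorem core {O K : Type*} [CommRing O] [IsDomain O] [IsDiscreteValuationRing O] [Field K]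
    [Algebra O K] [IsFractionRing O K] (h2 : (2 : ResidueField O) ≠ 0)
    {V : Type*} [AddCommGroup V] [Module K V] [FiniteDimensional K V]
    {s : ℕ} (hdim : finrank K V = 2 ^ (s + 1))
    (X Y : Fin s → Module.End K V) (u v : Fin s → Oˣ)
    (hX : ∀ i, X i * X i = algebraMap K _ (algebraMap O K (u i)))
    (hY : ∀ i, Y i * Y i = algebraMap K _ (algebraMap O K (v i)))
    (hXY : ∀ i, X i * Y i = -(Y i * X i))
    (hc : ∀ i j, i ≠ j → Commute (X i) (X j) ∧ Commute (X i) (Y j) ∧ Commute (Y i) (Y j))
    (J P : Module.End K V) (w : Oˣ) (p : O) (hp : Irreducible p)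
    (hJ : J * J = algebraMap K _ (algebraMap O K w)) (hP : P * P = algebraMap K _ (algebraMap O K p))
    (hJP : J * P = -(P * J)) (hJX : ∀ i, Commute (X i) J) (hJY : ∀ i, Commute (Y i) J)
    (hPX : ∀ i, Commute (X i) P) (hPY : ∀ i, Commute (Y i) P) :
    IsSquare (residue O (w : O)) := by
  let _ : Module O V := Module.compHom V (algebraMap O K)
  have htow : IsScalarTower O K V := IsScalarTower.of_algebraMap_smul fun _ _ => rfl
  let T : (Fin s ⊕ Fin s) ⊕ Bool → Module.End K V :=
    Sum.elim (Sum.elim X Y) (fun b => cond b J P)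
  let o : (Fin s ⊕ Fin s) ⊕ Bool → O :=
    Sum.elim (Sum.elim (fun i => (u i : O)) (fun i => (v i : O))) (fun b => cond b (w : O) p)
  have hT : ∀ i, T i * T i = algebraMap K _ (algebraMap O K (o i)) := by
    rintro ((i | i) | (_ | _))
    · exact hX i
    · exact hY i
    · exact hP
    · exact hJ
  have hTc : ∀ i j, T i * T j = T j * T i ∨ T i * T j = -(T j * T i) := by
    have hYX : ∀ i, Y i * X i = -(X i * Y i) := fun i => by rw [hXY, neg_neg]
    have hPJ : P * J = -(J * P) := by rw [hJP, neg_neg]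
    rintro ((i | i) | (_ | _)) ((j | j) | (_ | _))
    · by_cases h : i = j
      · subst h; exact Or.inl rfl
      · exact Or.inl (hc i j h).1.eq
    · by_cases h : i = j
      · subst h; exact Or.inr (hXY i)
      · exact Or.inl (hc i j h).2.1.eq
    · exact Or.inl (hPX i).eq
    · exact Or.inl (hJX i).eq
    · by_cases h : i = j
      · subst h; exact Or.inr (hYX i)
      · exact Or.inl (hc j i (Ne.symm h)).2.1.symm.eq
    · by_cases h : i = j
      · subst h; exact Or.inl rfl
      · exact Or.inl (hc i j h).2.2.eq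
    · exact Or.inl (hPY i).eq
    · exact Or.inl (hJY i).eq
    · exact Or.inl (hPX j).symm.eq
    · exact Or.inl (hPY j).symm.eq
    · exact Or.inl rfl
    · exact Or.inr hPJ
    · exact Or.inl (hJX j).symm.eq
    · exact Or.inl (hJY j).symm.eq
    · exact Or.inr hJP
    · exact Or.inl rfl
  obtain ⟨Λ, hfg, hspan, hst⟩ := exists_lattice (O := O) T o hT hTc
  have hlat : Submodule.IsLattice K Λ := ⟨hfg, hspan⟩
  have : Module.Finite O Λ := Submodule.IsLattice.finite K Λ
  have : Module.IsTorsionFree O K := inferInstance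
  have : Module.Free O Λ := Submodule.IsLattice.free K Λ
  have hΛ : finrank O Λ = 2 ^ (s + 1) := by
    rw [← hdim]
    exact congrArg Cardinal.toNat (Submodule.IsLattice.rank' K Λ)
  let R : ∀ i, Module.End O Λ := fun i => ((T i).restrictScalars O).restrict (hst i)
  have Rmul : ∀ i j (z : Λ), ((R i * R j) z : V) = (T i * T j) (z : V) := fun _ _ _ => rfl
  have comm : ∀ i j, Commute (T i) (T j) → Commute (R i) (R j) := by
    intro i j h
    apply LinearMap.ext; intro z; apply Subtype.ext
    rw [Rmul, Rmul, h.eq]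
  have anti : ∀ i j, T i * T j = -(T j * T i) → R i * R j = -(R j * R i) := by
    intro i j h
    apply LinearMap.ext; intro z; apply Subtype.ext
    rw [Rmul, h, LinearMap.neg_apply, LinearMap.neg_apply, Submodule.coe_neg, Rmul]
  have sq : ∀ i, R i * R i = algebraMap O _ (o i) := by
    intro i
    apply LinearMap.ext; intro z; apply Subtype.ext
    rw [Rmul, hT, Module.algebraMap_end_apply, Module.algebraMap_end_apply, algebraMap_smul]
    rfl
  exact core_lattice h2 hΛ (fun i => R (Sum.inl (Sum.inl i))) (fun i => R (Sum.inl (Sum.inr i)))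
    u v (fun i => sq _) (fun i => sq _) (fun i => anti _ _ (hXY i))
    (fun i j hij => ⟨comm _ _ (hc i j hij).1, comm _ _ (hc i j hij).2.1, comm _ _ (hc i j hij).2.2⟩)
    (R (Sum.inr true)) (R (Sum.inr false)) w p hp (sq _) (sq _) (anti _ _ hJP)
    (fun i => comm _ _ (hJX i)) (fun i => comm _ _ (hJY i))
    (fun i => comm _ _ (hPX i)) (fun i => comm _ _ (hPY i))

end Core

end Pool.Agent.Lib.MP_43d240_ag.H66
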