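import Mathlib
import Pool.Agent.Lib.MP_43d240_ag.H66.ResB

/-!
Chapter (2) RESIDUES, part C: the theorem on residues of relations between quaternion algebras over
the fraction field of a discrete valuation ring.
-/

set_option autoImplicit false

namespace Pool.Agent.Lib.MP_43d240_ag.H66

open Module IsLocalRing

section Index

/-- Normalisation of one pair `X, Y` with the help of `P` (`P ^ 2` a uniformizer) and `J₀`
(`J₀ P = - P J₀`). -/
theorem index_spec {O K E : Type*} [CommRing O] [IsLocalRing O] [Field K] [Algebra O K]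
    [Ring E] [Algebra K E] (hi : IsSquare (-1 : ResidueField O))
    (q : K) (hq : q ≠ 0) (X Y P J : E) (m n : ℤ) (u v : Oˣ)
    (hX : X * X = algebraMap K E (q ^ m * algebraMap O K u))
    (hY : Y * Y = algebraMap K E (q ^ n * algebraMap O K v))
    (hXY : X * Y = -(Y * X)) (hP : P * P = algebraMap K E q) (hJP : J * P = -(P * J))
    (hPX : Commute P X) (hPY : Commute P Y) (hJX : Commute J X) (hJY : Commute J Y) :
    ∃ (X' Y' D : E) (d : Oˣ), X' * X' = algebraMap K E (algebraMap O K u) ∧
      Y' * Y' = algebraMap K E (algebraMap O K v) ∧ X' * Y' = -(Y' * X') ∧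
      D * D = algebraMap K E (algebraMap O K d) ∧ Commute (J * D) X' ∧ Commute (J * D) Y' ∧
      (∀ T, Commute T X → Commute T Y → Commute T D) ∧
      (∀ T, Commute T X → Commute T P → Commute T X') ∧
      (∀ T, Commute T Y → Commute T P → Commute T Y') ∧
      ∃ c : ResidueField O, residue O (u : O) ^ n * residue O (v : O) ^ m =
        c * c * residue O (d : O) := by
  obtain ⟨ι, hι⟩ := hi
  have hYX : Y * X = -(X * Y) := by rw [hXY, neg_neg]
  have aXY : SemiconjBy X Y (-Y) := by rw [SemiconjBy, hXY, neg_mul]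
  have aYX : SemiconjBy Y X (-X) := by rw [SemiconjBy, hYX, neg_mul]
  have aJP : SemiconjBy J P (-P) := by rw [SemiconjBy, hJP, neg_mul]
  have hu0 : residue O (u : O) ≠ 0 := (u.isUnit.map (residue O)).ne_zero
  have hv0 : residue O (v : O) ≠ 0 := (v.isUnit.map (residue O)).ne_zero
  have key : ∀ (s c : K) (A : E), A * A = algebraMap K E c →
      (s • A) * (s • A) = algebraMap K E (s * s * c) := by
    intro s c A h
    rw [smul_mul_smul_comm, h, Algebra.smul_def, ← map_mul]
  have key2 : ∀ (c : K) (A : E), Commute P A → A * A = algebraMap K E c →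
      (P * A) * (P * A) = algebraMap K E (q * c) := by
    intro c A hA h
    rw [mul_assoc, ← mul_assoc A P A, ← hA.eq, mul_assoc P A A, ← mul_assoc P P, hP, h, map_mul]
  rcases Int.emod_two_eq_zero_or_one m with hm | hm <;>
    rcases Int.emod_two_eq_zero_or_one n with hn | hn
  · -- both even
    obtain ⟨m', rfl⟩ : ∃ m', m = 2 * m' := ⟨m / 2, by omega⟩
    obtain ⟨n', rfl⟩ : ∃ n', n = 2 * n' := ⟨n / 2, by omega⟩
    refine ⟨q ^ (-m') • X, q ^ (-n') • Y, 1, 1, ?_, ?_, ?_, ?_, ?_, ?_, ?_, ?_, ?_, ?_⟩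
    · rw [key _ _ _ hX]
      congr 1
      rw [two_mul, zpow_add₀ hq, zpow_neg]
      field_simp
    · rw [key _ _ _ hY]
      congr 1
      rw [two_mul, zpow_add₀ hq, zpow_neg]
      field_simp
    · rw [smul_mul_smul_comm, smul_mul_smul_comm, hXY, smul_neg, mul_comm]
    · simp
    · rw [mul_one]; exact hJX.smul_right _
    · rw [mul_one]; exact hJY.smul_right _
    · intro T _ _; exact Commute.one_right _
    · intro T h _; exact h.smul_right _
    · intro T h _; exact h.smul_right _
    · refine ⟨residue O (u : O) ^ n' * residue O (v : O) ^ m', ?_⟩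
      simp only [Units.val_one, map_one, mul_one]
      rw [two_mul, two_mul, zpow_add₀ hu0, zpow_add₀ hv0]
      ring
  · -- m even, n odd
    obtain ⟨m', rfl⟩ : ∃ m', m = 2 * m' := ⟨m / 2, by omega⟩
    obtain ⟨n', rfl⟩ : ∃ n', n = 2 * n' + 1 := ⟨n / 2, by omega⟩
    have sJ : SemiconjBy J (P * Y) (-P * Y) := aJP.mul_right hJY
    have sX : SemiconjBy X (P * Y) (P * (-Y)) := SemiconjBy.mul_right hPX.symm aXY
    have sJX : Commute (J * X) (P * Y) := by
      have h1 : SemiconjBy J (P * (-Y)) ((-P) * (-Y)) := aJP.mul_right hJY.neg_right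
      have h2 := h1.mul_left sX
      rwa [neg_mul_neg] at h2
    refine ⟨q ^ (-m') • X, q ^ (-(n' + 1)) • (P * Y), q ^ (-m') • X, u,
      ?_, ?_, ?_, ?_, ?_, ?_, ?_, ?_, ?_, ?_⟩
    · rw [key _ _ _ hX]
      congr 1
      rw [two_mul, zpow_add₀ hq, zpow_neg]
      field_simp
    · rw [key _ _ _ (key2 _ _ hPY hY)]
      congr 1
      rw [two_mul, zpow_add₀ hq, zpow_add₀ hq, zpow_neg, zpow_add₀ hq, zpow_one]
      field_simp
    · rw [smul_mul_smul_comm, smul_mul_smul_comm, sX.eq, mul_neg, neg_mul, smul_neg, mul_comm]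
    · rw [key _ _ _ hX]
      congr 1
      rw [two_mul, zpow_add₀ hq, zpow_neg]
      field_simp
    · rw [mul_smul_comm]
      exact ((hJX.mul_left (Commute.refl X)).smul_left _).smul_right _
    · rw [mul_smul_comm]
      exact (sJX.smul_left _).smul_right _
    · intro T h _; exact h.smul_right _
    · intro T h _; exact h.smul_right _
    · intro T h h'; exact (h'.mul_right h).smul_right _
    · refine ⟨residue O (u : O) ^ n' * residue O (v : O) ^ m', ?_⟩
      rw [two_mul, two_mul, zpow_add₀ hu0, zpow_add₀ hu0, zpow_add₀ hv0, zpow_one]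
      ring
  · -- m odd, n even
    obtain ⟨m', rfl⟩ : ∃ m', m = 2 * m' + 1 := ⟨m / 2, by omega⟩
    obtain ⟨n', rfl⟩ : ∃ n', n = 2 * n' := ⟨n / 2, by omega⟩
    have sY : SemiconjBy Y (P * X) (P * (-X)) := SemiconjBy.mul_right hPY.symm aYX
    have sJY : Commute (J * Y) (P * X) := by
      have h1 : SemiconjBy J (P * (-X)) ((-P) * (-X)) := aJP.mul_right hJX.neg_right
      have h2 := h1.mul_left sY
      rwa [neg_mul_neg] at h2
    refine ⟨q ^ (-(m' + 1)) • (P * X), q ^ (-n') • Y, q ^ (-n') • Y, v,
      ?_, ?_, ?_, ?_, ?_, ?_, ?_, ?_, ?_, ?_⟩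
    · rw [key _ _ _ (key2 _ _ hPX hX)]
      congr 1
      rw [two_mul, zpow_add₀ hq, zpow_add₀ hq, zpow_neg, zpow_add₀ hq, zpow_one]
      field_simp
    · rw [key _ _ _ hY]
      congr 1
      rw [two_mul, zpow_add₀ hq, zpow_neg]
      field_simp
    · rw [smul_mul_smul_comm, smul_mul_smul_comm, sY.eq, mul_neg, neg_mul, smul_neg, neg_neg,
        mul_comm]
    · rw [key _ _ _ hY]
      congr 1
      rw [two_mul, zpow_add₀ hq, zpow_neg]
      field_simp
    · rw [mul_smul_comm]
      exact (sJY.smul_left _).smul_right _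
    · rw [mul_smul_comm]
      exact ((hJY.mul_left (Commute.refl Y)).smul_left _).smul_right _
    · intro T _ h; exact h.smul_right _
    · intro T h h'; exact (h'.mul_right h).smul_right _
    · intro T h _; exact h.smul_right _
    · refine ⟨residue O (u : O) ^ n' * residue O (v : O) ^ m', ?_⟩
      rw [two_mul, two_mul, zpow_add₀ hu0, zpow_add₀ hv0, zpow_add₀ hv0, zpow_one]
      ring
  · -- both odd
    obtain ⟨m', rfl⟩ : ∃ m', m = 2 * m' + 1 := ⟨m / 2, by omega⟩
    obtain ⟨n', rfl⟩ : ∃ n', n = 2 * n' + 1 := ⟨n / 2, by omega⟩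
    have sX : SemiconjBy X (P * Y) (P * (-Y)) := SemiconjBy.mul_right hPX.symm aXY
    have sJX : Commute (J * (X * Y)) (P * Y) := by
      have h1 : SemiconjBy J (P * (-Y)) ((-P) * (-Y)) := aJP.mul_right hJY.neg_right
      have h0 : SemiconjBy Y (P * Y) (P * Y) := hPY.symm.mul_right (Commute.refl Y)
      have h2 := h1.mul_left (sX.mul_left h0)
      rwa [neg_mul_neg] at h2
    have sJY : Commute (J * (X * Y)) (P * X) := by
      have h0 : SemiconjBy Y (P * X) (P * (-X)) := SemiconjBy.mul_right hPY.symm aYX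
      have h1 : SemiconjBy X (P * (-X)) (P * (-X)) :=
        hPX.symm.mul_right (Commute.refl X).neg_right
      have h3 : SemiconjBy J (P * (-X)) ((-P) * (-X)) := aJP.mul_right hJX.neg_right
      have h2 := h3.mul_left (h1.mul_left h0)
      rwa [neg_mul_neg] at h2
    have hXYsq : (X * Y) * (X * Y) =
        algebraMap K E (-((q ^ (2 * m' + 1) * algebraMap O K u) *
          (q ^ (2 * n' + 1) * algebraMap O K v))) := by
      rw [mul_assoc, ← mul_assoc Y X Y, hYX, neg_mul, mul_neg, mul_assoc X Y Y, ← mul_assoc X X,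
        hX, hY, ← map_mul, map_neg]
    refine ⟨q ^ (-(m' + 1)) • (P * X), q ^ (-(n' + 1)) • (P * Y),
      q ^ (-(m' + n' + 1)) • (X * Y), -(u * v), ?_, ?_, ?_, ?_, ?_, ?_, ?_, ?_, ?_, ?_⟩
    · rw [key _ _ _ (key2 _ _ hPX hX)]
      congr 1
      rw [two_mul, zpow_add₀ hq, zpow_add₀ hq, zpow_neg, zpow_add₀ hq, zpow_one]
      field_simp
    · rw [key _ _ _ (key2 _ _ hPY hY)]
      congr 1
      rw [two_mul, zpow_add₀ hq, zpow_add₀ hq, zpow_neg, zpow_add₀ hq, zpow_one]
      field_simp
    · have e1 : P * X * (P * Y) = P * P * (X * Y) := by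
        rw [mul_assoc, ← mul_assoc X P Y, ← hPX.eq]; simp only [mul_assoc]
      have e2 : P * Y * (P * X) = P * P * (Y * X) := by
        rw [mul_assoc, ← mul_assoc Y P X, ← hPY.eq]; simp only [mul_assoc]
      rw [smul_mul_smul_comm, smul_mul_smul_comm, e1, e2, hXY, mul_neg, smul_neg, mul_comm]
    · rw [key _ _ _ hXYsq]
      congr 1
      rw [two_mul, two_mul, zpow_neg]
      simp only [zpow_add₀ hq, zpow_one, Units.val_neg, Units.val_mul, map_neg, map_mul]
      field_simp
    · rw [mul_smul_comm]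
      exact (sJY.smul_left _).smul_right _
    · rw [mul_smul_comm]
      exact (sJX.smul_left _).smul_right _
    · intro T h h'; exact (h.mul_right h').smul_right _
    · intro T h h'; exact (h'.mul_right h).smul_right _
    · intro T h h'; exact (h'.mul_right h).smul_right _
    · refine ⟨ι * (residue O (u : O) ^ n' * residue O (v : O) ^ m'), ?_⟩
      rw [two_mul, two_mul]
      simp only [zpow_add₀ hu0, zpow_add₀ hv0, zpow_one, Units.val_neg, Units.val_mul, map_neg,
        map_mul]
      linear_combination (-(residue O (u : O) ^ n' * residue O (v : O) ^ m') *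
        (residue O (u : O) ^ n' * residue O (v : O) ^ m') * residue O (u : O) * residue O (v : O)) * hι

theorem anti_mul {E : Type*} [Ring E] {J P Q : E} (h : J * P = -(P * J)) (hQ : Commute P Q) :
    J * Q * P = -(P * (J * Q)) := by
  rw [mul_assoc, ← hQ.eq, ← mul_assoc, h, neg_mul, mul_assoc]

theorem pw {E ι : Type*} [Monoid E] {D : ι → E} (hc : ∀ i j, Commute (D i) (D j))
    (s : Finset ι) : (s : Set ι).Pairwise (Function.onFun Commute D) := fun i _ j _ _ => hc i j

theorem prod_sq {K E ι : Type*} [Field K] [Ring E] [Algebra K E] (D : ι → E)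
    (hc : ∀ i j, Commute (D i) (D j)) (e : ι → K) (h : ∀ i, D i * D i = algebraMap K E (e i))
    (s : Finset ι) :
    s.noncommProd D (pw hc s) * s.noncommProd D (pw hc s) = algebraMap K E (∏ i ∈ s, e i) := by
  classical
  induction s using Finset.induction_on with
  | empty => simp
  | insert j s hj ih =>
    rw [Finset.noncommProd_insert_of_notMem _ _ _ _ hj, Finset.prod_insert hj, map_mul, ← ih, ← h j]
    have hcm : Commute (D j) (s.noncommProd D (pw hc s)) :=
      Finset.noncommProd_commute _ _ _ _ (fun i _ => hc j i)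
    rw [mul_assoc, ← mul_assoc _ (D j), ← hcm.eq]
    simp only [mul_assoc]

end Index

/-- Main theorem of the chapter in the `algebraMap` form. -/
theorem residues' {O K : Type*} [CommRing O] [IsDomain O] [IsDiscreteValuationRing O] [Field K]
    [Algebra O K] [IsFractionRing O K] (h2 : (2 : ResidueField O) ≠ 0)
    (hi : IsSquare (-1 : ResidueField O))
    {V : Type*} [AddCommGroup V] [Module K V] [FiniteDimensional K V]
    {r : ℕ} (hdim : finrank K V = 2 ^ r) (X Y : Fin r → Module.End K V) (p : O)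
    (hp : Irreducible p) (m n : Fin r → ℤ) (u v : Fin r → Oˣ)
    (hX : ∀ i, X i * X i = algebraMap K _ (algebraMap O K p ^ m i * algebraMap O K (u i)))
    (hY : ∀ i, Y i * Y i = algebraMap K _ (algebraMap O K p ^ n i * algebraMap O K (v i)))
    (hXY : ∀ i, X i * Y i = -(Y i * X i))
    (hc : ∀ i j, i ≠ j → Commute (X i) (X j) ∧ Commute (X i) (Y j) ∧ Commute (Y i) (Y j)) :
    IsSquare (∏ i, residue O (u i : O) ^ n i * residue O (v i : O) ^ m i) := by
  classical
  have hq : algebraMap O K p ≠ 0 := by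
    intro h
    exact hp.ne_zero ((IsFractionRing.injective O K) (by rw [h, map_zero]))
  set q := algebraMap O K p with hqdef
  -- the doubled space
  let L : Module.End K V →ₐ[K] Module.End K (V × V) :=
    (LinearMap.prodMapAlgHom K V V).comp ((AlgHom.id K _).prod (AlgHom.id K _))
  have hL : ∀ (T : Module.End K V) (z : V × V), L T z = (T z.1, T z.2) := fun _ _ => rfl
  let P : Module.End K (V × V) := (q • LinearMap.snd K V V).prod (LinearMap.fst K V V)
  have hPz : ∀ z : V × V, P z = (q • z.2, z.1) := fun _ => rfl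
  let J : Module.End K (V × V) := (LinearMap.fst K V V).prod (-LinearMap.snd K V V)
  have hJz : ∀ z : V × V, J z = (z.1, -z.2) := fun _ => rfl
  have hPP : P * P = algebraMap K _ q := by
    apply LinearMap.ext; rintro ⟨x, y⟩
    rw [Module.End.mul_apply, hPz, hPz, Module.algebraMap_end_apply]; rfl
  have hJJ : J * J = 1 := by
    apply LinearMap.ext; rintro ⟨x, y⟩
    rw [Module.End.mul_apply, hJz, hJz]; simp
  have hJP : J * P = -(P * J) := by
    apply LinearMap.ext; rintro ⟨x, y⟩
    rw [LinearMap.neg_apply, Module.End.mul_apply, Module.End.mul_apply, hJz, hPz, hPz, hJz]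
    simp
  have hPL : ∀ T, Commute P (L T) := by
    intro T
    apply LinearMap.ext; rintro ⟨x, y⟩
    rw [Module.End.mul_apply, Module.End.mul_apply, hL, hPz, hPz, hL]
    simp
  have hJL : ∀ T, Commute J (L T) := by
    intro T
    apply LinearMap.ext; rintro ⟨x, y⟩
    rw [Module.End.mul_apply, Module.End.mul_apply, hL, hJz, hJz, hL]
    simp
  have hspec := fun i => index_spec hi q hq (L (X i)) (L (Y i)) P J (m i) (n i) (u i) (v i)
    (by rw [← map_mul, hX, AlgHom.commutes]) (by rw [← map_mul, hY, AlgHom.commutes])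
    (by rw [← map_mul, hXY, map_neg, map_mul]) hPP hJP (hPL _) (hPL _) (hJL _) (hJL _)
  choose X' Y' D d hX' hY' hXY' hD hDX hDY hTD hTX hTY c hcc using hspec
  have cXX : ∀ i j, i ≠ j → Commute (L (X i)) (L (X j)) := fun i j h => (hc i j h).1.map L
  have cXY : ∀ i j, i ≠ j → Commute (L (X i)) (L (Y j)) := fun i j h => (hc i j h).2.1.map L
  have cYX : ∀ i j, i ≠ j → Commute (L (Y i)) (L (X j)) := fun i j h => (cXY j i h.symm).symm
  have cYY : ∀ i j, i ≠ j → Commute (L (Y i)) (L (Y j)) := fun i j h => (hc i j h).2.2.map L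
  -- `T` commuting with the old ones
  have cXD : ∀ i j, i ≠ j → Commute (L (X i)) (D j) := fun i j h => hTD j _ (cXX i j h) (cXY i j h)
  have cYD : ∀ i j, i ≠ j → Commute (L (Y i)) (D j) := fun i j h => hTD j _ (cYX i j h) (cYY i j h)
  have cPD : ∀ j, Commute P (D j) := fun j => hTD j _ (hPL _) (hPL _)
  have cJD : ∀ j, Commute J (D j) := fun j => hTD j _ (hJL _) (hJL _)
  have cXX' : ∀ i j, i ≠ j → Commute (L (X i)) (X' j) := fun i j h =>
    hTX j _ (cXX i j h) (hPL _).symm
  have cYX' : ∀ i j, i ≠ j → Commute (L (Y i)) (X' j) := fun i j h =>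
    hTX j _ (cYX i j h) (hPL _).symm
  have cXY' : ∀ i j, i ≠ j → Commute (L (X i)) (Y' j) := fun i j h =>
    hTY j _ (cXY i j h) (hPL _).symm
  have cYY' : ∀ i j, i ≠ j → Commute (L (Y i)) (Y' j) := fun i j h =>
    hTY j _ (cYY i j h) (hPL _).symm
  have cPX' : ∀ j, Commute P (X' j) := fun j => hTX j _ (hPL _) (Commute.refl P)
  have cPY' : ∀ j, Commute P (Y' j) := fun j => hTY j _ (hPL _) (Commute.refl P)
  have cDD : ∀ i j, Commute (D i) (D j) := by
    intro i j
    by_cases h : i = j
    · subst h; exact Commute.refl _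
    · exact hTD j _ (cXD j i (Ne.symm h)).symm (cYD j i (Ne.symm h)).symm
  have cDX' : ∀ i j, i ≠ j → Commute (X' i) (D j) := fun i j h =>
    (hTX i _ (cXD i j h).symm (cPD j).symm).symm
  have cDY' : ∀ i j, i ≠ j → Commute (Y' i) (D j) := fun i j h =>
    (hTY i _ (cYD i j h).symm (cPD j).symm).symm
  -- the product of the `D j`
  let Q : Module.End K (V × V) := (Finset.univ : Finset (Fin r)).noncommProd D (pw cDD _)
  let w : Oˣ := ∏ i, d i
  have hQQ : Q * Q = algebraMap K _ (algebraMap O K (w : O)) := by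
    have h1 := prod_sq D cDD (fun i => algebraMap O K (d i : O)) hD Finset.univ
    rw [← map_prod] at h1
    simpa [w, Q] using h1
  have cT : ∀ T, (∀ j, Commute T (D j)) → Commute T Q := fun T h =>
    Finset.noncommProd_commute _ _ _ _ (fun j _ => h j)
  have hJQX : ∀ i, Commute (X' i) (J * Q) := by
    intro i
    have h1 := Finset.mul_noncommProd_erase (Finset.univ : Finset (Fin r)) (Finset.mem_univ i) D
      (pw cDD _)
    change Commute (X' i) (J * Finset.noncommProd _ _ _)
    rw [← h1, ← mul_assoc]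
    refine (hDX i).symm.mul_right ?_
    exact Finset.noncommProd_commute _ _ _ _
      (fun j hj => cDX' i j (Ne.symm (Finset.ne_of_mem_erase hj)))
  have hJQY : ∀ i, Commute (Y' i) (J * Q) := by
    intro i
    have h1 := Finset.mul_noncommProd_erase (Finset.univ : Finset (Fin r)) (Finset.mem_univ i) D
      (pw cDD _)
    change Commute (Y' i) (J * Finset.noncommProd _ _ _)
    rw [← h1, ← mul_assoc]
    refine (hDY i).symm.mul_right ?_
    exact Finset.noncommProd_commute _ _ _ _
      (fun j hj => cDY' i j (Ne.symm (Finset.ne_of_mem_erase hj)))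
  have hdim2 : finrank K (V × V) = 2 ^ (r + 1) := by
    rw [Module.finrank_prod, hdim, pow_succ]; ring
  have hcore : IsSquare (residue O (w : O)) := by
    refine core (K := K) h2 hdim2 X' Y' u v hX' hY' hXY' ?_ (J * Q) P w p hp ?_ hPP ?_ hJQX hJQY
      (fun i => (cPX' i).symm) (fun i => (cPY' i).symm)
    · intro i j hij
      exact ⟨hTX j _ (cXX' j i hij.symm).symm (cPX' i).symm,
        hTY j _ (cYX' j i hij.symm).symm (cPX' i).symm,
        hTY j _ (cYY' j i hij.symm).symm (cPY' i).symm⟩
    · have e : J * Q * (J * Q) = J * J * (Q * Q) := by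
        have hJQ : Commute J Q := cT J cJD
        rw [mul_assoc, ← mul_assoc Q J Q, ← hJQ.eq]; simp only [mul_assoc]
      rw [e, hJJ, one_mul, hQQ]
    · exact anti_mul hJP (cT P cPD)
  have hfin : (∏ i, residue O (u i : O) ^ n i * residue O (v i : O) ^ m i) =
      (∏ i, c i) * (∏ i, c i) * residue O (w : O) := by
    rw [Finset.prod_congr rfl (fun i _ => hcc i), Finset.prod_mul_distrib,
      Finset.prod_mul_distrib]
    congr 1
    simp [w, map_prod]
  rw [hfin]
  exact (IsSquare.mul_self _).mul hcore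

/-- **Residues of relations between quaternion algebras.** Let `O` be a discrete valuation ring with
fraction field `K`, residue characteristic not `2`, and `-1` a square in the residue field. Let
`(X i, Y i)`, `i < r`, be anticommuting pairs of operators on a `K`-space of dimension `2 ^ r`,
different pairs commuting, with `X i ^ 2 = a i`, `Y i ^ 2 = b i` scalars, `a i = p ^ m i * u i`,
`b i = p ^ n i * v i` with `p` a uniformizer and `u i, v i` units. Then the product of the tame
symbols `ū ^ n * v̄ ^ m` is a square in the residue field. -/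
theorem residues {O K : Type*} [CommRing O] [IsDomain O] [IsDiscreteValuationRing O] [Field K]
    [Algebra O K] [IsFractionRing O K] (h2 : (2 : ResidueField O) ≠ 0)
    (hi : IsSquare (-1 : ResidueField O)) {r : ℕ}
    {V : Type*} [AddCommGroup V] [Module K V] [FiniteDimensional K V]
    (hdim : finrank K V = 2 ^ r) (X Y : Fin r → Module.End K V) (a b : Fin r → K)
    (hX : ∀ i, X i * X i = a i • (1 : Module.End K V))
    (hY : ∀ i, Y i * Y i = b i • (1 : Module.End K V))
    (hXY : ∀ i, X i * Y i = -(Y i * X i))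
    (hc : ∀ i j, i ≠ j → Commute (X i) (X j) ∧ Commute (X i) (Y j) ∧ Commute (Y i) (Y j))
    (p : O) (hp : Irreducible p) (m n : Fin r → ℤ) (u v : Fin r → Oˣ)
    (ha : ∀ i, a i = algebraMap O K p ^ m i * algebraMap O K (u i))
    (hb : ∀ i, b i = algebraMap O K p ^ n i * algebraMap O K (v i)) :
    IsSquare (∏ i, residue O (u i : O) ^ n i * residue O (v i : O) ^ m i) :=
  residues' h2 hi hdim X Y p hp m n u v
    (fun i => by rw [hX, ha, Algebra.algebraMap_eq_smul_one (A := Module.End K V)])
    (fun i => by rw [hY, hb, Algebra.algebraMap_eq_smul_one (A := Module.End K V)]) hXY hc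

/-- Matrix form of `residues`. -/
theorem residues_mat {O K : Type*} [CommRing O] [IsDomain O] [IsDiscreteValuationRing O] [Field K]
    [Algebra O K] [IsFractionRing O K] (h2 : (2 : ResidueField O) ≠ 0)
    (hi : IsSquare (-1 : ResidueField O)) {r : ℕ}
    (X Y : Fin r → Matrix (Fin (2 ^ r)) (Fin (2 ^ r)) K) (a b : Fin r → K)
    (hX : ∀ i, X i * X i = a i • (1 : Matrix (Fin (2 ^ r)) (Fin (2 ^ r)) K))
    (hY : ∀ i, Y i * Y i = b i • (1 : Matrix (Fin (2 ^ r)) (Fin (2 ^ r)) K))
    (hXY : ∀ i, X i * Y i = -(Y i * X i))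
    (hc : ∀ i j, i ≠ j → X i * X j = X j * X i ∧ X i * Y j = Y j * X i ∧ Y i * Y j = Y j * Y i)
    (p : O) (hp : Irreducible p) (m n : Fin r → ℤ) (u v : Fin r → Oˣ)
    (ha : ∀ i, a i = algebraMap O K p ^ m i * algebraMap O K (u i))
    (hb : ∀ i, b i = algebraMap O K p ^ n i * algebraMap O K (v i)) :
    IsSquare (∏ i, residue O (u i : O) ^ n i * residue O (v i : O) ^ m i) := by
  let L : Matrix (Fin (2 ^ r)) (Fin (2 ^ r)) K ≃ₐ[K] Module.End K (Fin (2 ^ r) → K) :=
    Matrix.toLinAlgEquiv'
  refine residues h2 hi (V := Fin (2 ^ r) → K) (by simp) (fun i => L (X i)) (fun i => L (Y i)) a b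
    (fun i => by rw [← map_mul, hX, map_smul, map_one])
    (fun i => by rw [← map_mul, hY, map_smul, map_one])
    (fun i => by rw [← map_mul, hXY, map_neg, map_mul])
    (fun i j h => ?_) p hp m n u v ha hb
  obtain ⟨h1, h2, h3⟩ := hc i j h
  refine ⟨?_, ?_, ?_⟩
  · change L _ * L _ = L _ * L _
    rw [← map_mul, h1, map_mul]
  · change L _ * L _ = L _ * L _
    rw [← map_mul, h2, map_mul]
  · change L _ * L _ = L _ * L _
    rw [← map_mul, h3, map_mul]

end Pool.Agent.Lib.MP_43d240_ag.H66
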